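import Pool.Agent.H907.Henon.Bar

/-!
# Hénon maps with biholomorphic class VII surfaces (problem MP_e79cb7_ag, Q1)

Let `f` and `g` be generalized Hénon maps.  We prove that the compact surfaces `S̄(f)` and `S̄(g)`
are biholomorphic if and only if `f` and `g` are conjugate by a polynomial automorphism of `ℂ²`, and
we describe all such `g` explicitly by equations between the coefficients.

Correspondence with the problem file (all definitions are in `Pool.Agent.H907.Henon.Defs`):

* `Fac`, `Fac.map`, `comp`, `IsGenHenon`: the maps `H_{a,P}`, their compositions, generalized Hénon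
  maps;
* `Om f`: the basin `Ω(f)`; `S f`: the orbit space `S(f)`; `Biholo f g`: `S(f)` and `S(g)` are
  biholomorphic;
* `IsBarS f M`: the compact complex surface `M` is (a model of) `S̄(f)`;
  `BarBiholo g M`: some model of `S̄(g)` is biholomorphic to `M`;
* `PolyConj`, `HolConj`: conjugacy in the group of polynomial, respectively holomorphic,
  automorphisms of `ℂ²`; `Explicit l m`: equations between the coefficients of the factors.

Outline of the proof.  After an affine change of coordinates all polynomials are monic and centered.
The Böttcher coordinate `φ` and a second coordinate `w` near the point `[1:0:0]` uniformize the basin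
by `ℍ × ℂ` (`ℍ` the right half plane) and conjugate `f` to the model map
`(ζ, w) ↦ (d ζ, β w + q(e^ζ))` with a polynomial `q` built from truncated inverse series of the
factors (modules `Near1`-`Near5`, `Glob1`-`Glob4`).  A biholomorphic map `S(f) → S(g)` lifts to
`ℍ × ℂ` (module `Lift`) and has the form `(ζ, w) ↦ (r ζ + c, b w + h(e^ζ))` (module `Rigid`).  A
comparison of Fourier coefficients (module `Coeff`) and a combinatorial lemma on chains of integers
(module `Chain`) then recover the factors up to rotation (module `Comb`).
-/

open scoped Manifold ContDiff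

namespace Pool.Agent.Results.MP_e79cb7_ag.HenonSurfaces

open Pool.Agent.H907.Henon

/-- **Classification.**

(A) For generalized Hénon maps `f = H_1 ∘ ⋯ ∘ H_k` and `g = H'_1 ∘ ⋯ ∘ H'_{k'}` the following are
equivalent: `S(f)` and `S(g)` are biholomorphic; the factors of `g` are obtained from those of `f` by
a rotation and an affine change of coordinates, as made explicit in `Explicit`; `f` and `g` are
conjugate by a polynomial automorphism of `ℂ²`; `f` and `g` are conjugate by a holomorphic
automorphism of `ℂ²`.

(B) For generalized Hénon maps `f`, `g` and any model `M` of the compact surface `S̄(f)`: the surface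
`S̄(g)` is biholomorphic to `S̄(f)` if and only if `f` and `g` are conjugate by a polynomial
automorphism of `ℂ²`. -/
theorem result :
    (∀ l m : List Fac, l ≠ [] → m ≠ [] →
      List.TFAE [Biholo (comp l) (comp m), Explicit l m, PolyConj (comp l) (comp m),
        HolConj (comp l) (comp m)]) ∧
    (∀ f g : ℂ × ℂ → ℂ × ℂ, IsGenHenon f → IsGenHenon g →
      ∀ (M : Type) [TopologicalSpace M] [ChartedSpace (ℂ × ℂ) M], IsBarS f M →
        (BarBiholo g M ↔ PolyConj f g)) := by
  refine ⟨fun l m hl hm => tfae_main hl hm, ?_⟩
  intro f g hf hg M _ _ hM
  constructor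
  · rintro ⟨M', i1, i2, hM', ⟨e⟩⟩
    have hB : Biholo f g := biholo_of_barS hf hg hM hM' e
    obtain ⟨l, hl, rfl⟩ := hf
    obtain ⟨m, hm, rfl⟩ := hg
    exact ((tfae_main hl hm).out 0 2).1 hB
  · intro h
    exact ⟨M, inferInstance, inferInstance, barS_of_conj hf hg hM h, ⟨Diffeomorph.refl _ _ _⟩⟩

end Pool.Agent.Results.MP_e79cb7_ag.HenonSurfaces
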